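import Mathlib

set_option autoImplicit false

namespace Pool.Agent.H218Z.Del

/-- Elements: 0 = a, 1 = p, 2 = p', 3 = c, 4 = c', 5 = b, 6 = b1, 7 = b2. -/
def isA (x : Fin 8) : Bool := x.val < 5

def T : Fin 8 → Fin 8 → Bool
  | 0, _ => true
  | 1, x => x == 0 || x == 1 || x == 6
  | 2, x => x == 0 || x == 2 || x == 7
  | 3, x => x == 1 || x == 3 || x == 7
  | 4, x => x == 2 || x == 4 || x == 6
  | 5, x => x == 1 || x == 3 || x == 5 || x == 7
  | 6, x => x == 2 || x == 4 || x == 5 || x == 6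
  | 7, x => x == 0 || x == 3 || x == 4

def E : Fin 8 → Fin 8 → Bool
  | 0, x => x == 5
  | 1, x => x == 0
  | 2, x => x == 0
  | 3, x => x == 1
  | 4, x => x == 2
  | 5, _ => false
  | 6, _ => false
  | 7, x => x == 3 || x == 4

theorem key : ∀ (s0 s1 s2 s3 s4 s5 s6 s7 k : Bool),
    (∃ y : Fin 8, ![s0, s1, s2, s3, s4, s5, s6, s7] y = true ∧ isA y = k) →
    ∃ u : Fin 8, isA u = k ∧
      (∀ i : Fin 8, (∀ y : Fin 8, ![s0, s1, s2, s3, s4, s5, s6, s7] y = true → T i y = true) →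
        T i u = true ∧ (E i u = true →
          ∀ y : Fin 8, ![s0, s1, s2, s3, s4, s5, s6, s7] y = true → y = u)) ∧
      ∀ e : Fin 8, (∀ y : Fin 8, ![s0, s1, s2, s3, s4, s5, s6, s7] y = true → y = e) → u = e := by
  decide +kernel

theorem key' (s : Fin 8 → Bool) (k : Bool) : ∃ u : Fin 8, (∃ y, s y = true ∧ isA y = k) →
    isA u = k ∧ (∀ i : Fin 8, (∀ y, s y = true → T i y = true) →
        T i u = true ∧ (E i u = true → ∀ y, s y = true → y = u)) ∧
      ∀ e : Fin 8, (∀ y, s y = true → y = e) → u = e := by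
  have e : s = ![s 0, s 1, s 2, s 3, s 4, s 5, s 6, s 7] := by
    funext i; fin_cases i <;> rfl
  by_cases h : ∃ y, s y = true ∧ isA y = k
  · rw [e] at h ⊢
    obtain ⟨u, hu⟩ := key _ _ _ _ _ _ _ _ k h
    exact ⟨u, fun _ => hu⟩
  · exact ⟨0, fun h' => absurd h' h⟩

def C0 (n : ℕ) : Set ((Fin n → Fin 8) → Fin 8) :=
  {f | (∀ (k : Bool) (x y : Fin n → Fin 8), (∀ j, isA (x j) = k ∨ isA (y j) = k) →
      isA (f x) = k ∨ isA (f y) = k) ∧
    (∀ (i : Fin 8) (x : Fin n → Fin 8), (∀ j, T i (x j) = true) → T i (f x) = true) ∧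
    ∀ (i e : Fin 8), E i e = true → ∀ x y z : Fin n → Fin 8,
      (∀ j, T i (x j) = true ∧ T i (y j) = true ∧ T i (z j) = true ∧
        ¬ (x j = e ∧ y j = e ∧ z j = e)) → ¬ (f x = e ∧ f y = e ∧ f z = e)}

def IsClone (C : ∀ n : ℕ, Set ((Fin n → Fin 8) → Fin 8)) : Prop :=
  (∀ (n : ℕ) (i : Fin n), (fun x : Fin n → Fin 8 => x i) ∈ C n) ∧
  ∀ (n m : ℕ) (f : (Fin n → Fin 8) → Fin 8) (g : Fin n → (Fin m → Fin 8) → Fin 8),
    f ∈ C n → (∀ i, g i ∈ C m) → (fun x : Fin m → Fin 8 => f (fun i => g i x)) ∈ C m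

def Wnu {n : ℕ} (f : (Fin n → Fin 8) → Fin 8) : Prop :=
  (∀ x : Fin 8, f (fun _ : Fin n => x) = x) ∧ ∀ (x y : Fin 8) (i j : Fin n),
    f (Function.update (fun _ : Fin n => x) i y) = f (Function.update (fun _ : Fin n => x) j y)

def HasWnu (C : ∀ n : ℕ, Set ((Fin n → Fin 8) → Fin 8)) : Prop :=
  ∀ n : ℕ, 3 ≤ n → ∃ f ∈ C n, Wnu f

theorem c0_clone : IsClone C0 := by
  refine ⟨fun n i => ⟨fun k x y h => h i, fun _ x h => h i, fun _ e _ x y z h => (h i).2.2.2⟩,
    fun n m f g hf hg => ⟨fun k x y h => hf.1 k _ _ (fun j => (hg j).1 k x y h),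
      fun i x h => hf.2.1 i _ (fun j => (hg j).2.1 i x h), fun i e he x y z h => ?_⟩⟩
  exact hf.2.2 i e he _ _ _ (fun j => ⟨(hg j).2.1 i x (fun l => (h l).1),
    (hg j).2.1 i y (fun l => (h l).2.1), (hg j).2.1 i z (fun l => (h l).2.2.1),
    (hg j).2.2 i e he x y z h⟩)

def maj (a b c : Bool) : Bool := (a && b) || (a && c) || (b && c)

theorem maj_mem : ∀ a b c : Bool, maj a b c = a ∨ maj a b c = b := by decide

theorem maj_cross : ∀ a b c a' b' c' k : Bool, (a = k ∨ a' = k) → (b = k ∨ b' = k) →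
    (c = k ∨ c' = k) → maj a b c = k ∨ maj a' b' c' = k := by decide

theorem c0_wnu : HasWnu C0 := by
  classical
  intro n hn
  obtain ⟨m, rfl⟩ : ∃ m, n = m + 3 := ⟨n - 3, by omega⟩
  choose φ hφ using key'
  let st : (Fin (m + 3) → Fin 8) → Fin 8 → Bool := fun x y => decide (∃ j, x j = y)
  let bl : (Fin (m + 3) → Fin 8) → Bool := fun x => maj (isA (x 0)) (isA (x 1)) (isA (x 2))
  have hst : ∀ x y, st x y = true ↔ ∃ j, x j = y := fun x y => by simp [st]
  have h : ∀ x, _ := fun x => hφ (st x) (bl x) (by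
    rcases maj_mem (isA (x 0)) (isA (x 1)) (isA (x 2)) with h | h
    · exact ⟨x 0, (hst _ _).mpr ⟨0, rfl⟩, h.symm⟩
    · exact ⟨x 1, (hst _ _).mpr ⟨1, rfl⟩, h.symm⟩)
  have hT : ∀ i x, (∀ j, T i (x j) = true) → ∀ y, st x y = true → T i y = true := by
    intro i x hx y hy
    obtain ⟨j, rfl⟩ := (hst _ _).mp hy
    exact hx j
  refine ⟨fun x => φ (st x) (bl x), ⟨fun k x y hxy => ?_, fun i x hx => ?_,
    fun i e he x y z hh => ?_⟩, fun x => ?_, fun x y i j => ?_⟩
  · show isA (φ _ _) = k ∨ isA (φ _ _) = k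
    rw [(h x).1, (h y).1]
    exact maj_cross _ _ _ _ _ _ k (hxy 0) (hxy 1) (hxy 2)
  · exact ((h x).2.1 i (hT i x hx)).1
  · rintro ⟨h1, h2, h3⟩
    refine (hh 0).2.2.2 ⟨?_, ?_, ?_⟩
    · rw [← h1]
      exact ((h x).2.1 i (hT i x (fun j => (hh j).1))).2 (by rw [← he, ← h1]) _
        ((hst _ _).mpr ⟨0, rfl⟩)
    · rw [← h2]
      exact ((h y).2.1 i (hT i y (fun j => (hh j).2.1))).2 (by rw [← he, ← h2]) _
        ((hst _ _).mpr ⟨0, rfl⟩)
    · rw [← h3]
      exact ((h z).2.1 i (hT i z (fun j => (hh j).2.2.1))).2 (by rw [← he, ← h3]) _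
        ((hst _ _).mpr ⟨0, rfl⟩)
  · exact (h _).2.2 x (fun y hy => by obtain ⟨_, e⟩ := (hst _ _).mp hy; exact e.symm)
  · have s1 : ∀ i : Fin (m + 3), st (Function.update (fun _ => x) i y) =
        fun u => decide (u = x ∨ u = y) := by
      intro i
      funext u
      simp only [st, decide_eq_decide]
      constructor
      · rintro ⟨l, rfl⟩
        by_cases e : l = i
        · right; rw [e]; simp
        · left; rw [Function.update_of_ne e]
      · rintro (rfl | rfl)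
        · obtain ⟨l, hl⟩ := exists_ne i
          exact ⟨l, by rw [Function.update_of_ne hl]⟩
        · exact ⟨i, by simp⟩
    have s2 : ∀ i : Fin (m + 3), bl (Function.update (fun _ => x) i y) = isA x := by
      intro i
      have n01 : (0 : Fin (m + 3)) ≠ 1 := by simp
      have n02 : (0 : Fin (m + 3)) ≠ 2 := fun e => by
        have := congrArg Fin.val e
        simp [Nat.mod_eq_of_lt] at this
      have n12 : (1 : Fin (m + 3)) ≠ 2 := fun e => by
        have := congrArg Fin.val e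
        simp [Nat.mod_eq_of_lt] at this
      simp only [bl]
      by_cases e0 : 0 = i
      · subst e0
        rw [Function.update_of_ne n01.symm, Function.update_of_ne n02.symm]
        cases isA x <;> simp [maj]
      · rw [Function.update_of_ne e0]
        by_cases e1 : 1 = i
        · subst e1
          rw [Function.update_of_ne n12.symm]
          cases isA x <;> simp [maj]
        · rw [Function.update_of_ne e1]
          cases isA x <;> simp [maj]
    show φ _ _ = φ _ _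
    rw [s1, s1, s2, s2]

theorem exists_min : ∃ C : ∀ n : ℕ, Set ((Fin n → Fin 8) → Fin 8), IsClone C ∧ HasWnu C ∧
    (∀ n, C n ⊆ C0 n) ∧ ∀ D, IsClone D → (∀ n, D n ⊆ C n) → HasWnu D → ∀ n, D n = C n := by
  obtain ⟨m, _, hm⟩ := zorn_le_nonempty₀
    (α := (∀ n : ℕ, Set ((Fin n → Fin 8) → Fin 8))ᵒᵈ)
    {C | IsClone (OrderDual.ofDual C) ∧ HasWnu (OrderDual.ofDual C) ∧
      ∀ n, OrderDual.ofDual C n ⊆ C0 n} (fun c hc hch y hy => by
      refine ⟨OrderDual.toDual (fun n => {f | ∀ D ∈ c, f ∈ OrderDual.ofDual D n}),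
        ⟨⟨fun n i D hD => (hc hD).1.1 n i, fun n m f g hf hg D hD =>
          (hc hD).1.2 n m f g (hf D hD) (fun i => hg i D hD)⟩, fun n hn => ?_,
          fun n f hf => (hc hy).2.2 n (hf y hy)⟩, fun D hD n f hf => hf D hD⟩
      obtain ⟨k, hk⟩ : ∃ k, ∃ D ∈ c, {f | f ∈ OrderDual.ofDual D n ∧ Wnu f}.ncard = k :=
        ⟨_, y, hy, rfl⟩
      induction k using Nat.strong_induction_on with
      | _ k ih =>
        obtain ⟨D, hD, hk⟩ := hk
        obtain ⟨f, hf, hw⟩ := (hc hD).2.1 n hn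
        by_cases hall : ∀ D' ∈ c, f ∈ OrderDual.ofDual D' n
        · exact ⟨f, hall, hw⟩
        · push Not at hall
          obtain ⟨D', hD', hn'⟩ := hall
          have hle : OrderDual.ofDual D' n ⊆ OrderDual.ofDual D n := by
            rcases hch.total hD hD' with h | h
            · exact h n
            · exact absurd (h n hf) hn'
          refine ih _ ?_ ⟨D', hD', rfl⟩
          rw [← hk]
          exact Set.ncard_lt_ncard ⟨fun g hg => ⟨hle hg.1, hg.2⟩, fun h => hn' (h ⟨hf, hw⟩).1⟩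
            (Set.toFinite _))
    (OrderDual.toDual C0) ⟨c0_clone, c0_wnu, fun _ => le_rfl⟩
  refine ⟨OrderDual.ofDual m, hm.1.1, hm.1.2.1, hm.1.2.2, fun D h1 h2 h3 n => ?_⟩
  exact Set.Subset.antisymm (h2 n) (hm.2 (y := OrderDual.toDual D)
    ⟨h1, h3, fun n => (h2 n).trans (hm.1.2.2 n)⟩ (fun n => h2 n) n)

theorem forced {v : (Fin 3 → Fin 8) → Fin 8} (hv : v ∈ C0 3) (hw : Wnu v) (x y : Fin 8) :
    isA (v ![x, x, y]) = isA x ∧ ∀ i, T i x = true → T i y = true →
      T i (v ![x, x, y]) = true ∧ (E i x = true → y ≠ x → v ![x, x, y] ≠ x) := by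
  have e0 : (![y, x, x] : Fin 3 → Fin 8) = Function.update (fun _ => x) 0 y := by
    funext i; fin_cases i <;> rfl
  have e1 : (![x, y, x] : Fin 3 → Fin 8) = Function.update (fun _ => x) 1 y := by
    funext i; fin_cases i <;> rfl
  have e2 : (![x, x, y] : Fin 3 → Fin 8) = Function.update (fun _ => x) 2 y := by
    funext i; fin_cases i <;> rfl
  have w0 : v ![y, x, x] = v ![x, x, y] := by rw [e0, e2]; exact hw.2 _ _ _ _
  have w1 : v ![x, y, x] = v ![x, x, y] := by rw [e1, e2]; exact hw.2 _ _ _ _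
  refine ⟨?_, fun i hx hy => ⟨hv.2.1 i _ (fun j => by fin_cases j <;> assumption), fun he hne h => ?_⟩⟩
  · have := hv.1 (isA x) ![x, y, x] ![y, x, x] (fun j => by fin_cases j <;> simp)
    rw [w0, w1] at this
    exact this.elim id id
  · refine hv.2.2 i x he ![y, x, x] ![x, y, x] ![x, x, y] (fun j => ?_) ⟨w0.trans h, w1.trans h, h⟩
    fin_cases j <;> simp [hx, hy, hne]

theorem values {v : (Fin 3 → Fin 8) → Fin 8} (hv : v ∈ C0 3) (hw : Wnu v) :
    (v ![5, 5, 0] = 6 ∨ v ![5, 5, 0] = 7) ∧ v ![0, 0, 6] = 1 ∧ v ![0, 0, 7] = 2 ∧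
    v ![5, 5, 1] = 7 ∧ v ![5, 5, 2] = 6 ∧ v ![1, 1, 7] = 3 ∧ v ![2, 2, 6] = 4 ∧
    v ![3, 3, 4] = 0 := by
  have k := forced hv hw
  refine ⟨?_, ?_, ?_, ?_, ?_, ?_, ?_, ?_⟩
  · have h1 := (k 5 0).1
    have h2 := ((k 5 0).2 0 rfl rfl).2 rfl (by decide)
    revert h1 h2; generalize v ![5, 5, 0] = u; revert u; decide
  · have h1 := (k 0 6).1
    have h2 := ((k 0 6).2 1 rfl rfl)
    have h3 := h2.2 rfl (by decide)
    have h4 := h2.1
    revert h1 h3 h4; generalize v ![0, 0, 6] = u; revert u; decide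
  · have h1 := (k 0 7).1
    have h2 := ((k 0 7).2 2 rfl rfl)
    have h3 := h2.2 rfl (by decide)
    have h4 := h2.1
    revert h1 h3 h4; generalize v ![0, 0, 7] = u; revert u; decide
  · have h1 := (k 5 1).1
    have h3 := ((k 5 1).2 0 rfl rfl).2 rfl (by decide)
    have h4 := ((k 5 1).2 5 rfl rfl).1
    revert h1 h3 h4; generalize v ![5, 5, 1] = u; revert u; decide
  · have h1 := (k 5 2).1
    have h3 := ((k 5 2).2 0 rfl rfl).2 rfl (by decide)
    have h4 := ((k 5 2).2 6 rfl rfl).1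
    revert h1 h3 h4; generalize v ![5, 5, 2] = u; revert u; decide
  · have h1 := (k 1 7).1
    have h2 := ((k 1 7).2 3 rfl rfl)
    have h3 := h2.2 rfl (by decide)
    have h4 := h2.1
    revert h1 h3 h4; generalize v ![1, 1, 7] = u; revert u; decide
  · have h1 := (k 2 6).1
    have h2 := ((k 2 6).2 4 rfl rfl)
    have h3 := h2.2 rfl (by decide)
    have h4 := h2.1
    revert h1 h3 h4; generalize v ![2, 2, 6] = u; revert u; decide
  · have h2 := ((k 3 4).2 7 rfl rfl)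
    have h3 := h2.2 rfl (by decide)
    have h4 := h2.1
    have h5 : v ![3, 3, 4] ≠ 4 := by
      intro h
      refine hv.2.2 7 4 rfl ![3, 3, 4] ![3, 3, 4] ![4, 3, 3] (fun j => ?_) ⟨h, h, ?_⟩
      · fin_cases j <;> decide
      · have e0 : (![4, 3, 3] : Fin 3 → Fin 8) = Function.update (fun _ => 3) 0 4 := by
          funext i; fin_cases i <;> rfl
        have e2 : (![3, 3, 4] : Fin 3 → Fin 8) = Function.update (fun _ => 3) 2 4 := by
          funext i; fin_cases i <;> rfl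
        refine Eq.trans ?_ h
        rw [e0, e2]; exact hw.2 _ _ _ _
    revert h3 h4 h5; generalize v ![3, 3, 4] = u; revert u; decide

end Pool.Agent.H218Z.Del
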